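import Mathlib

namespace Pool.Agent.Results.MP_b187f1_co.SinkIndependence

open Relation

/-- `a u w` is the number of arcs from `u` to `w`; this is the out-degree of `v`. -/
def outdeg {V : Type} [Fintype V] (a : V → V → ℕ) (v : V) : ℕ := ∑ w, a v w

/-- strong connectivity -/
def StronglyConnected {V : Type} (a : V → V → ℕ) : Prop :=
  ∀ u v, ReflTransGen (fun x y => 0 < a x y) u v

/-- configurations for the sink `s` -/
abbrev Config {V : Type} (s : V) : Type := {v : V // v ≠ s} → ℕ

section

set_option linter.unusedSectionVars false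
variable {V : Type} [Fintype V] [DecidableEq V] (a : V → V → ℕ) (s : V)

/-- `c'` arises from `c` by a legal firing of some vertex `v ≠ s` of `G_s`: `v` has at least
`outdeg v` chips, loses `outdeg v` chips, and every `w ≠ s` receives `a v w` chips. -/
def Fires (c c' : Config s) : Prop :=
  ∃ v : {v : V // v ≠ s}, outdeg a v.1 ≤ c v ∧
    ∀ w, c' w + (if w = v then outdeg a v.1 else 0) = c w + a v.1 w.1

/-- stable configurations: no vertex may fire -/
def Stable (c : Config s) : Prop := ∀ v : {v : V // v ≠ s}, c v < outdeg a v.1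

/-- `x` stabilises to `c` -/
def StabilisesTo (x c : Config s) : Prop := ReflTransGen (Fires a s) x c ∧ Stable a s c

/-- recurrent configurations -/
def Recurrent (c : Config s) : Prop :=
  Stable a s c ∧ ∀ x : Config s, ∃ b : Config s, StabilisesTo a s (x + b) c

/-- the firing vector of `v` -/
def r (v : {v : V // v ≠ s}) : {v : V // v ≠ s} → ℤ :=
  fun w => if w = v then (outdeg a v.1 : ℤ) else -(a v.1 w.1 : ℤ)

/-- the vector `β` -/
def β : {v : V // v ≠ s} → ℤ := fun w => (a s w.1 : ℤ)

/-- the lattice `L` spanned by the firing vectors and `β` -/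
def L : Submodule ℤ ({v : V // v ≠ s} → ℤ) :=
  Submodule.span ℤ (Set.range (r a s) ∪ {β a s})

/-- the relation `c₁ ∼ c₂` iff `c₁ - c₂ ∈ L` on recurrent configurations -/
def clsSetoid : Setoid {c : Config s // Recurrent a s c} where
  r c₁ c₂ := (fun v => (c₁.1 v : ℤ) - (c₂.1 v : ℤ)) ∈ L a s
  iseqv :=
    { refl := fun c => by
        have : (fun v => (c.1 v : ℤ) - (c.1 v : ℤ)) = 0 := by
          funext v
          exact sub_self _
        rw [this]
        exact (L a s).zero_mem
      symm := fun {c₁ c₂} h => by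
        have h1 := (L a s).neg_mem h
        have : (fun v => (c₂.1 v : ℤ) - (c₁.1 v : ℤ)) =
            -(fun v => (c₁.1 v : ℤ) - (c₂.1 v : ℤ)) := by
          funext v
          simp
        rw [this]
        exact h1
      trans := fun {c₁ c₂ c₃} h h' => by
        have h1 := (L a s).add_mem h h'
        have : (fun v => (c₁.1 v : ℤ) - (c₃.1 v : ℤ)) =
            (fun v => (c₁.1 v : ℤ) - (c₂.1 v : ℤ)) + (fun v => (c₂.1 v : ℤ) - (c₃.1 v : ℤ)) := by
          funext v
          simp
        rw [this]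
        exact h1 }

/-- the set of classes of recurrent configurations -/
def Classes : Type := Quotient (clsSetoid a s)

/-- the set of degrees `outdeg s + ∑ c` over the class `B` -/
def degs (B : Classes a s) : Set ℕ :=
  {n | ∃ c : {c : Config s // Recurrent a s c}, Quotient.mk (clsSetoid a s) c = B ∧
    n = outdeg a s + ∑ v, c.1 v}

/-- `d_s(B)`: the maximum of `degs B` -/
noncomputable def d (B : Classes a s) : ℕ := sSup (degs a s B)

/-! ### Laplacian on all vertices -/

/-- firing vector on all vertices -/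
def Δ (v : V) : V → ℤ := fun w => (if w = v then (outdeg a v : ℤ) else 0) - (a v w : ℤ)

/-- lattice of firing vectors -/
def Λ : Submodule ℤ (V → ℤ) := Submodule.span ℤ (Set.range (Δ a))

lemma sum_Δ (v : V) : ∑ w, Δ a v w = 0 := by
  unfold Δ
  rw [Finset.sum_sub_distrib, Finset.sum_ite_eq' Finset.univ v]
  simp [outdeg]

lemma sum_of_mem_Λ {D : V → ℤ} (hD : D ∈ Λ a) : ∑ w, D w = 0 := by
  unfold Λ at hD
  induction hD using Submodule.span_induction with
  | mem x hx =>
    obtain ⟨v, rfl⟩ := hx
    exact sum_Δ a v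
  | zero => simp
  | add x y _ _ hx hy =>
    simp only [Pi.add_apply, Finset.sum_add_distrib, hx, hy, add_zero]
  | smul n x _ hx =>
    simp only [Pi.smul_apply, smul_eq_mul, ← Finset.mul_sum, hx, mul_zero]

/-- restriction to the non-sink vertices -/
def res : (V → ℤ) →ₗ[ℤ] ({v : V // v ≠ s} → ℤ) := LinearMap.funLeft ℤ ℤ Subtype.val

lemma res_apply (D : V → ℤ) (w : {v : V // v ≠ s}) : res s D w = D w.1 := rfl

variable {a s}

lemma res_Δ (h0 : ∀ v, a v v = 0) (v : {v : V // v ≠ s}) : res s (Δ a v.1) = r a s v := by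
  funext w
  rw [res_apply]
  unfold Δ r
  by_cases h : w = v
  · subst h
    simp [h0]
  · have : w.1 ≠ v.1 := fun h' => h (Subtype.ext h')
    rw [if_neg h, if_neg this, zero_sub]

lemma res_Δ_s : res s (Δ a s) = -β a s := by
  funext w
  rw [res_apply]
  unfold Δ β
  rw [if_neg w.2]
  simp

lemma L_eq (h0 : ∀ v, a v v = 0) : L a s = (Λ a).map (res s) := by
  unfold L Λ
  rw [Submodule.map_span]
  apply le_antisymm
  · rw [Submodule.span_le]
    rintro x (⟨v, rfl⟩ | hx)
    · exact Submodule.subset_span ⟨Δ a v.1, ⟨v.1, rfl⟩, res_Δ h0 v⟩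
    · rw [Set.mem_singleton_iff] at hx
      subst hx
      have h1 : res s (Δ a s) ∈ Submodule.span ℤ (res s '' Set.range (Δ a)) :=
        Submodule.subset_span ⟨Δ a s, ⟨s, rfl⟩, rfl⟩
      rw [res_Δ_s] at h1
      have h2 := Submodule.neg_mem _ h1
      rw [neg_neg] at h2
      exact h2
  · rw [Submodule.span_le]
    rintro x ⟨_, ⟨v, rfl⟩, rfl⟩
    by_cases hv : v = s
    · subst hv
      rw [res_Δ_s]
      exact Submodule.neg_mem _ (Submodule.subset_span (Or.inr rfl))
    · rw [res_Δ h0 ⟨v, hv⟩]
      exact Submodule.subset_span (Or.inl ⟨⟨v, hv⟩, rfl⟩)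

lemma eq_zero_of_res {D : V → ℤ} (h1 : res s D = 0) (h2 : ∑ w, D w = 0) : D = 0 := by
  have h3 : ∀ w, w ≠ s → D w = 0 := fun w hw => congrFun h1 ⟨w, hw⟩
  have h4 : D s = 0 := by
    rw [← h2]
    symm
    apply Finset.sum_eq_single s
    · intro w _ hw
      exact h3 w hw
    · intro h
      exact absurd (Finset.mem_univ _) h
  funext w
  by_cases hw : w = s
  · rw [hw]
    exact h4
  · exact h3 w hw

lemma mem_Λ_iff (h0 : ∀ v, a v v = 0) {D : V → ℤ} (hD : ∑ w, D w = 0) :
    D ∈ Λ a ↔ res s D ∈ L a s := by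
  rw [L_eq h0]
  constructor
  · intro h
    exact Submodule.mem_map_of_mem h
  · intro h
    obtain ⟨D0, hD0, h1⟩ := Submodule.mem_map.1 h
    have h2 : D - D0 = 0 := by
      apply eq_zero_of_res (s := s)
      · rw [map_sub, h1, sub_self]
      · simp only [Pi.sub_apply, Finset.sum_sub_distrib, hD, sum_of_mem_Λ a hD0, sub_self]
    rw [sub_eq_zero] at h2
    rw [h2]
    exact hD0

/-! ### termination of the sink game -/

lemma exists_dist (hsc : StronglyConnected a) (s : V) :
    ∃ D : V → ℕ, D s = 0 ∧ ∀ v, v ≠ s → ∃ w, 0 < a v w ∧ D w < D v := by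
  classical
  let Wk : ℕ → V → Prop := fun n => Nat.rec (fun v => v = s) (fun _ P v => ∃ w, 0 < a v w ∧ P w) n
  have hex : ∀ v, ∃ n, Wk n v := by
    intro v
    induction hsc v s using ReflTransGen.head_induction_on with
    | refl => exact ⟨0, rfl⟩
    | head h _ ih =>
      obtain ⟨n, hn⟩ := ih
      exact ⟨n + 1, _, h, hn⟩
  have key : ∀ v, ∃ n, Wk n v ∧ ∀ k, Wk k v → n ≤ k := fun v => by
    refine ⟨Nat.find (hex v), Nat.find_spec (hex v), fun k hk => Nat.find_min' (hex v) hk⟩
  choose D hD1 hD2 using key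
  refine ⟨D, ?_, ?_⟩
  · have h1 : Wk 0 s := rfl
    exact Nat.le_zero.1 (hD2 s 0 h1)
  · intro v hv
    have h1 := hD1 v
    obtain ⟨n, hn⟩ : ∃ n, D v = n + 1 := by
      cases h : D v with
      | zero =>
        rw [h] at h1
        exact absurd h1 hv
      | succ n => exact ⟨n, rfl⟩
    rw [hn] at h1
    obtain ⟨w, hw, hw2⟩ := h1
    refine ⟨w, hw, ?_⟩
    have h2 : D w ≤ n := hD2 _ _ hw2
    omega

lemma exists_potential (hsc : StronglyConnected a) (s : V) :
    ∃ h : V → ℤ, h s = 0 ∧ (∀ v, 0 ≤ h v) ∧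
      ∀ v, v ≠ s → ∑ w, (a v w : ℤ) * h w < (outdeg a v : ℤ) * h v := by
  obtain ⟨D, hDs, hD⟩ := exists_dist hsc s
  set K : ℤ := 1 + ∑ v, (outdeg a v : ℤ) with hK
  have hKv : ∀ v, (outdeg a v : ℤ) + 1 ≤ K := by
    intro v
    have : (outdeg a v : ℤ) ≤ ∑ v, (outdeg a v : ℤ) :=
      Finset.single_le_sum (f := fun v => (outdeg a v : ℤ)) (fun _ _ => by positivity)
        (Finset.mem_univ v)
    linarith
  have hK1 : 1 ≤ K := by
    have : 0 ≤ ∑ v, (outdeg a v : ℤ) := Finset.sum_nonneg fun _ _ => by positivity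
    linarith
  set N : ℕ := ∑ v, D v with hN
  have hDN : ∀ v, D v ≤ N := fun v =>
    Finset.single_le_sum (f := fun v => D v) (fun _ _ => Nat.zero_le _) (Finset.mem_univ v)
  refine ⟨fun v => K ^ N - K ^ (N - D v), ?_, ?_, ?_⟩
  · simp [hDs]
  · intro v
    have : K ^ (N - D v) ≤ K ^ N := pow_le_pow_right₀ hK1 (Nat.sub_le _ _)
    show 0 ≤ K ^ N - K ^ (N - D v)
    linarith
  · intro v hv
    obtain ⟨w0, hw0, hlt⟩ := hD v hv
    have h1 : ∑ w, (a v w : ℤ) * (K ^ N - K ^ (N - D w)) =
        (outdeg a v : ℤ) * K ^ N - ∑ w, (a v w : ℤ) * K ^ (N - D w) := by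
      simp only [mul_sub, Finset.sum_sub_distrib, ← Finset.sum_mul]
      unfold outdeg
      push_cast
      rfl
    have h2 : (outdeg a v : ℤ) * K ^ (N - D v) < ∑ w, (a v w : ℤ) * K ^ (N - D w) := by
      have h3 : (a v w0 : ℤ) * K ^ (N - D w0) ≤ ∑ w, (a v w : ℤ) * K ^ (N - D w) :=
        Finset.single_le_sum (f := fun w => (a v w : ℤ) * K ^ (N - D w))
          (fun _ _ => by positivity) (Finset.mem_univ w0)
      have h4 : K ^ (N - D w0) ≤ (a v w0 : ℤ) * K ^ (N - D w0) := by
        have : (1 : ℤ) ≤ (a v w0 : ℤ) := by exact_mod_cast hw0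
        have h5 : 0 ≤ K ^ (N - D w0) := by positivity
        nlinarith
      have h5 : K ^ (N - D v + 1) ≤ K ^ (N - D w0) := by
        apply pow_le_pow_right₀ hK1
        have := hDN v
        omega
      have h6 : 0 < K ^ (N - D v) := by positivity
      have h7 : (outdeg a v : ℤ) * K ^ (N - D v) < K ^ (N - D v + 1) := by
        rw [pow_succ]
        have := hKv v
        nlinarith
      linarith
    show ∑ w, (a v w : ℤ) * (K ^ N - K ^ (N - D w)) < (outdeg a v : ℤ) * (K ^ N - K ^ (N - D v))
    rw [h1, mul_sub]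
    linarith

lemma fires_fire {c : Config s} {v : {v : V // v ≠ s}} (h : outdeg a v.1 ≤ c v) :
    Fires a s c (fun w => c w + a v.1 w.1 - (if w = v then outdeg a v.1 else 0)) := by
  refine ⟨v, h, fun w => ?_⟩
  by_cases hw : w = v
  · subst hw
    simp only [if_true]
    omega
  · simp only [if_neg hw]
    omega

lemma exists_stab (hsc : StronglyConnected a) (c : Config s) : ∃ c', StabilisesTo a s c c' := by
  obtain ⟨h, hs, hpos, hh⟩ := exists_potential hsc s
  obtain ⟨n, hn⟩ : ∃ n : ℕ, (∑ v : {v : V // v ≠ s}, (c v : ℤ) * h v.1) ≤ n :=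
    ⟨(∑ v : {v : V // v ≠ s}, (c v : ℤ) * h v.1).toNat, Int.self_le_toNat _⟩
  induction n generalizing c with
  | zero =>
    refine ⟨c, ReflTransGen.refl, ?_⟩
    intro v
    by_contra hcon
    push Not at hcon
    have h1 : (c v : ℤ) * h v.1 ≤ ∑ v : {v : V // v ≠ s}, (c v : ℤ) * h v.1 :=
      Finset.single_le_sum (f := fun v : {v : V // v ≠ s} => (c v : ℤ) * h v.1)
        (fun w _ => mul_nonneg (by positivity) (hpos w.1)) (Finset.mem_univ v)
    have h2 := hh v.1 v.2
    have h3 : 0 ≤ ∑ w, (a v.1 w : ℤ) * h w :=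
      Finset.sum_nonneg fun w _ => mul_nonneg (by positivity) (hpos w)
    have h4 : (outdeg a v.1 : ℤ) * h v.1 ≤ (c v : ℤ) * h v.1 :=
      mul_le_mul_of_nonneg_right (by exact_mod_cast hcon) (hpos v.1)
    have h5 : (∑ v : {v : V // v ≠ s}, (c v : ℤ) * h v.1) ≤ 0 := by simpa using hn
    linarith
  | succ n ih =>
    by_cases hst : Stable a s c
    · exact ⟨c, ReflTransGen.refl, hst⟩
    · unfold Stable at hst
      push Not at hst
      obtain ⟨v, hv⟩ := hst
      have hf := fires_fire hv
      set c1 : Config s := fun w => c w + a v.1 w.1 - (if w = v then outdeg a v.1 else 0) with hc1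
      have h1 : ∀ w, (c1 w : ℤ) = (c w : ℤ) + (a v.1 w.1 : ℤ) -
          (if w = v then (outdeg a v.1 : ℤ) else 0) := by
        intro w
        have h2 : c1 w + (if w = v then outdeg a v.1 else 0) = c w + a v.1 w.1 := by
          simp only [hc1]
          by_cases hw : w = v
          · subst hw
            simp only [if_true]
            omega
          · simp only [if_neg hw]
            omega
        have h3 : (c1 w : ℤ) + ((if w = v then outdeg a v.1 else 0 : ℕ) : ℤ) =
            (c w : ℤ) + (a v.1 w.1 : ℤ) := by exact_mod_cast h2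
        by_cases hw : w = v
        · rw [if_pos hw] at h3 ⊢
          linarith
        · rw [if_neg hw] at h3 ⊢
          push_cast at h3
          linarith
      have hsumV : ∑ w : {w : V // w ≠ s}, (a v.1 w.1 : ℤ) * h w.1 =
          ∑ w, (a v.1 w : ℤ) * h w := by
        rw [Fintype.sum_eq_add_sum_subtype_ne (fun w => (a v.1 w : ℤ) * h w) s, hs, mul_zero,
          zero_add]
      have h5 : (∑ w : {w : V // w ≠ s}, (c1 w : ℤ) * h w.1) ≤ n := by
        have h6 : (∑ w : {w : V // w ≠ s}, (c1 w : ℤ) * h w.1) =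
            (∑ w : {w : V // w ≠ s}, (c w : ℤ) * h w.1) +
            (∑ w, (a v.1 w : ℤ) * h w) - (outdeg a v.1 : ℤ) * h v.1 := by
          rw [← hsumV, ← Finset.sum_add_distrib]
          have h7 : (outdeg a v.1 : ℤ) * h v.1 = ∑ w : {w : V // w ≠ s},
              (if w = v then (outdeg a v.1 : ℤ) * h v.1 else 0) := by
            rw [Finset.sum_ite_eq' Finset.univ v]
            simp
          rw [h7, ← Finset.sum_sub_distrib]
          refine Finset.sum_congr rfl fun w _ => ?_
          rw [h1]
          by_cases hw : w = v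
          · subst hw
            simp only [if_true]
            ring
          · simp only [if_neg hw]
            ring
        have h8 := hh v.1 v.2
        push_cast at hn
        linarith
      obtain ⟨c', hc', hst'⟩ := ih c1 h5
      exact ⟨c', ReflTransGen.head hf hc', hst'⟩

/-! ### existence of recurrent configurations in every class -/

lemma Fires.add {c c' : Config s} (h : Fires a s c c') (x : Config s) :
    Fires a s (x + c) (x + c') := by
  obtain ⟨v, hv, hw⟩ := h
  refine ⟨v, ?_, fun w => ?_⟩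
  · show outdeg a v.1 ≤ x v + c v
    omega
  · show x w + c' w + _ = x w + c w + _
    have := hw w
    omega

lemma reach_add {c c' : Config s} (h : ReflTransGen (Fires a s) c c') (x : Config s) :
    ReflTransGen (Fires a s) (x + c) (x + c') := by
  induction h with
  | refl => exact ReflTransGen.refl
  | tail _ h ih => exact ih.tail (h.add x)

/-- integer vector of a configuration -/
def toZ (c : Config s) : {v : V // v ≠ s} → ℤ := fun v => (c v : ℤ)

lemma toZ_add (c c' : Config s) : toZ (c + c') = toZ c + toZ c' := by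
  funext v
  show ((c v + c' v : ℕ) : ℤ) = (c v : ℤ) + (c' v : ℤ)
  push_cast
  rfl

lemma Fires.toZ (h0 : ∀ v, a v v = 0) {c c' : Config s} (h : Fires a s c c') :
    ∃ v, toZ c' = toZ c - r a s v := by
  obtain ⟨v, hv, hw⟩ := h
  refine ⟨v, ?_⟩
  funext w
  show (c' w : ℤ) = (c w : ℤ) - r a s v w
  unfold r
  have h1 := hw w
  by_cases h2 : w = v
  · rw [if_pos h2] at h1 ⊢
    have h3 : a v.1 w.1 = 0 := by rw [h2]; exact h0 _
    rw [h3] at h1
    omega
  · rw [if_neg h2] at h1 ⊢
    omega

lemma r_mem_L (v : {v : V // v ≠ s}) : r a s v ∈ L a s :=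
  Submodule.subset_span (Or.inl ⟨v, rfl⟩)

lemma β_mem_L : β a s ∈ L a s := Submodule.subset_span (Or.inr rfl)

lemma reach_mem (h0 : ∀ v, a v v = 0) {c c' : Config s} (h : ReflTransGen (Fires a s) c c') :
    toZ c' - toZ c ∈ L a s := by
  induction h with
  | refl =>
    rw [sub_self]
    exact Submodule.zero_mem _
  | @tail b c' _ h ih =>
    obtain ⟨v, hv⟩ := h.toZ h0
    have h1 : toZ c' - toZ c = (toZ b - toZ c) - r a s v := by
      rw [hv]
      abel
    rw [h1]
    exact Submodule.sub_mem _ ih (r_mem_L v)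

/-- everything reached from a large configuration is recurrent -/
lemma recurrent_of_large (hsc : StronglyConnected a) {y c : Config s}
    (hy : ∀ v, outdeg a v.1 ≤ y v) (h : StabilisesTo a s y c) : Recurrent a s c := by
  refine ⟨h.2, fun x => ?_⟩
  obtain ⟨x', hx'⟩ := exists_stab hsc x
  refine ⟨fun v => y v - x' v, ?_, h.2⟩
  have h1 := reach_add hx'.1 (fun v => y v - x' v)
  have h2 : (fun v => y v - x' v) + x' = y := by
    funext v
    show y v - x' v + x' v = y v
    have h3 := hx'.2 v
    have h4 := hy v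
    omega
  rw [h2, add_comm] at h1
  exact h1.trans h.1

lemma finite_stable : Finite {c : Config s // Stable a s c} := by
  have h1 : Set.Finite {c : Config s | Stable a s c} := by
    refine (Set.finite_Icc (0 : Config s) (fun v => outdeg a v.1)).subset ?_
    intro c hc
    exact ⟨fun v => Nat.zero_le _, fun v => (hc v).le⟩
  exact h1.to_subtype

lemma exists_pos_mem (h0 : ∀ v, a v v = 0) (hsc : StronglyConnected a) (s : V) :
    ∃ T : ℤ, 0 < T ∧ (fun _ => T : {v : V // v ≠ s} → ℤ) ∈ L a s := by
  have h1 : ∀ t : ℕ, ∃ c : {c : Config s // Stable a s c},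
      ReflTransGen (Fires a s) (fun _ => t) c.1 := by
    intro t
    obtain ⟨c, hc⟩ := exists_stab hsc (fun _ => t : Config s)
    exact ⟨⟨c, hc.2⟩, hc.1⟩
  choose f hf using h1
  have := finite_stable (a := a) (s := s)
  obtain ⟨t1, t2, hne, heq⟩ := Finite.exists_ne_map_eq_of_infinite f
  have key : ∀ t1 t2 : ℕ, t1 < t2 → f t1 = f t2 →
      ∃ T : ℤ, 0 < T ∧ (fun _ => T : {v : V // v ≠ s} → ℤ) ∈ L a s := by
    intro t1 t2 hlt heq
    refine ⟨(t2 : ℤ) - t1, by omega, ?_⟩
    have h2 := reach_mem h0 (hf t1)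
    have h3 := reach_mem h0 (hf t2)
    rw [heq] at h2
    have h4 := Submodule.sub_mem _ h2 h3
    have h5 : (fun _ => (t2 : ℤ) - t1 : {v : V // v ≠ s} → ℤ) =
        (toZ (f t2).1 - toZ (fun _ => t1 : Config s)) -
          (toZ (f t2).1 - toZ (fun _ => t2 : Config s)) := by
      funext v
      simp [toZ]
    rw [h5]
    exact h4
  rcases lt_or_gt_of_ne hne with h | h
  · exact key t1 t2 h heq
  · exact key t2 t1 h heq.symm

lemma exists_recurrent (h0 : ∀ v, a v v = 0) (hsc : StronglyConnected a)
    (z : {v : V // v ≠ s} → ℤ) : ∃ c : Config s, Recurrent a s c ∧ toZ c - z ∈ L a s := by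
  obtain ⟨T, hT, hTL⟩ := exists_pos_mem h0 hsc s
  -- multiplier
  obtain ⟨m, hm⟩ : ∃ m : ℕ, ∀ v : {v : V // v ≠ s}, (outdeg a v.1 : ℤ) - z v ≤ m := by
    refine ⟨(∑ v : {v : V // v ≠ s}, |(outdeg a v.1 : ℤ) - z v|).toNat, fun v => ?_⟩
    have h1 : |(outdeg a v.1 : ℤ) - z v| ≤ ∑ v : {v : V // v ≠ s}, |(outdeg a v.1 : ℤ) - z v| :=
      Finset.single_le_sum (f := fun v : {v : V // v ≠ s} => |(outdeg a v.1 : ℤ) - z v|)
        (fun _ _ => abs_nonneg _) (Finset.mem_univ v)
    have h2 := le_abs_self ((outdeg a v.1 : ℤ) - z v)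
    have h3 := Int.self_le_toNat (∑ v : {v : V // v ≠ s}, |(outdeg a v.1 : ℤ) - z v|)
    linarith
  have hmT : ∀ v : {v : V // v ≠ s}, (outdeg a v.1 : ℤ) ≤ z v + m * T := by
    intro v
    have h1 := hm v
    have h2 : (m : ℤ) ≤ m * T := by nlinarith
    linarith
  set y : Config s := fun v => (z v + m * T).toNat with hy
  have hyv : ∀ v, (y v : ℤ) = z v + m * T := by
    intro v
    simp only [hy]
    rw [Int.toNat_of_nonneg]
    have := hmT v
    have h2 : (0 : ℤ) ≤ (outdeg a v.1 : ℤ) := by positivity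
    linarith
  have hylarge : ∀ v, outdeg a v.1 ≤ y v := by
    intro v
    have h1 := hmT v
    rw [← hyv v] at h1
    exact_mod_cast h1
  obtain ⟨c, hc⟩ := exists_stab hsc y
  refine ⟨c, recurrent_of_large hsc hylarge hc, ?_⟩
  have h1 := reach_mem h0 hc.1
  have h2 : toZ c - z = (toZ c - toZ y) + (m : ℤ) • (fun _ => T : {v : V // v ≠ s} → ℤ) := by
    funext v
    show toZ c v - z v = (toZ c v - (y v : ℤ)) + (m : ℤ) * T
    rw [hyv v]
    ring
  rw [h2]
  exact Submodule.add_mem _ h1 (Submodule.smul_mem _ _ hTL)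

/-! ### period vector -/

lemma exists_period [Nonempty V] (hsc : StronglyConnected a) :
    ∃ π : V → ℤ, (∀ v, 0 < π v) ∧ ∀ w, ∑ v, π v * Δ a v w = 0 := by
  classical
  let M : Matrix V V ℤ := Matrix.of fun v w => Δ a v w
  have h1 : M.mulVec (fun _ => 1) = 0 := by
    funext v
    simp only [Matrix.mulVec, dotProduct, M, Matrix.of_apply, mul_one, Pi.zero_apply]
    exact sum_Δ a v
  have h2 : M.det = 0 := by
    apply Matrix.exists_mulVec_eq_zero_iff.1
    refine ⟨fun _ => 1, ?_, h1⟩
    intro h
    obtain ⟨v⟩ := (inferInstance : Nonempty V)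
    have := congrFun h v
    simp at this
  obtain ⟨x, hx0, hx⟩ := Matrix.exists_vecMul_eq_zero_iff.2 h2
  have hsub : ∀ (y : V → ℤ) (w : V), ∑ v, y v * Δ a v w =
      (outdeg a w : ℤ) * y w - ∑ v, y v * (a v w : ℤ) := by
    intro y w
    unfold Δ
    simp only [mul_sub, Finset.sum_sub_distrib]
    congr 1
    rw [Finset.sum_eq_single w]
    · rw [if_pos rfl]
      ring
    · intro v _ hv
      rw [if_neg (Ne.symm hv), mul_zero]
    · intro h
      exact absurd (Finset.mem_univ _) h
  have hxw : ∀ w, (outdeg a w : ℤ) * x w = ∑ v, x v * (a v w : ℤ) := by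
    intro w
    have h3 := congrFun hx w
    simp only [Matrix.vecMul, dotProduct, M, Matrix.of_apply, Pi.zero_apply] at h3
    rw [hsub] at h3
    linarith
  have hle : ∀ w ∈ (Finset.univ : Finset V), (outdeg a w : ℤ) * |x w| ≤
      ∑ v, |x v| * (a v w : ℤ) := by
    intro w _
    calc (outdeg a w : ℤ) * |x w| = |(outdeg a w : ℤ) * x w| := by
          rw [abs_mul, abs_of_nonneg (by positivity : (0 : ℤ) ≤ (outdeg a w : ℤ))]
      _ = |∑ v, x v * (a v w : ℤ)| := by rw [hxw]
      _ ≤ ∑ v, |x v * (a v w : ℤ)| := Finset.abs_sum_le_sum_abs _ _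
      _ = ∑ v, |x v| * (a v w : ℤ) := by
          refine Finset.sum_congr rfl fun v _ => ?_
          rw [abs_mul, abs_of_nonneg (by positivity : (0 : ℤ) ≤ (a v w : ℤ))]
  have hsum : ∑ w, (outdeg a w : ℤ) * |x w| = ∑ w, ∑ v, |x v| * (a v w : ℤ) := by
    rw [Finset.sum_comm]
    refine Finset.sum_congr rfl fun v _ => ?_
    rw [← Finset.mul_sum, mul_comm]
    congr 1
    unfold outdeg
    push_cast
    rfl
  have heq := (Finset.sum_eq_sum_iff_of_le hle).1 hsum
  have hpos0 : ∃ v, 0 < |x v| := by
    by_contra hcon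
    push Not at hcon
    apply hx0
    funext v
    exact abs_eq_zero.1 (le_antisymm (hcon v) (abs_nonneg _))
  obtain ⟨v0, hv0⟩ := hpos0
  refine ⟨fun v => |x v|, fun w => ?_, fun w => ?_⟩
  · induction hsc v0 w with
    | refl => exact hv0
    | @tail b c _ hbc ih =>
      have h3 := heq c (Finset.mem_univ c)
      have h4 : |x b| * (a b c : ℤ) ≤ ∑ v, |x v| * (a v c : ℤ) :=
        Finset.single_le_sum (f := fun v => |x v| * (a v c : ℤ))
          (fun _ _ => by positivity) (Finset.mem_univ b)
      have h5 : 0 < |x b| * (a b c : ℤ) := by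
        have : (0 : ℤ) < (a b c : ℤ) := by exact_mod_cast hbc
        positivity
      rcases (abs_nonneg (x c)).lt_or_eq with h6 | h6
      · exact h6
      · rw [← h6, mul_zero] at h3
        linarith
  · rw [hsub, heq w (Finset.mem_univ w), sub_self]

/-! ### the main step -/

/-- extension of a configuration to an element of degree `k` on all of `V` -/
def ext (c : Config s) (k : ℤ) : V → ℤ :=
  fun v => if h : v ≠ s then (c ⟨v, h⟩ : ℤ) else k - ∑ w, (c w : ℤ)

lemma ext_val (c : Config s) (k : ℤ) (v : {v : V // v ≠ s}) : ext c k v.1 = c v := by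
  unfold ext
  rw [dif_pos v.2]

lemma ext_s (c : Config s) (k : ℤ) : ext c k s = k - ∑ w, (c w : ℤ) := by
  unfold ext
  rw [dif_neg (by simp)]

lemma sum_ext (c : Config s) (k : ℤ) : ∑ v, ext c k v = k := by
  rw [Fintype.sum_eq_add_sum_subtype_ne (ext c k) s, ext_s]
  have : ∑ i : {v : V // v ≠ s}, ext c k i.1 = ∑ w, (c w : ℤ) :=
    Finset.sum_congr rfl fun v _ => ext_val c k v
  rw [this]
  ring

lemma res_ext (c : Config s) (k : ℤ) : res s (ext c k) = toZ c := by
  funext v
  exact ext_val c k v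

lemma main_step (x : Config s) (D' : V → ℤ)
    (hD' : ∀ v, D' v < (outdeg a v : ℤ)) (N : ℕ) :
    ∀ (f : V → ℕ) (E : V → ℤ) (e : Config s) (n : ℕ), ∑ v, f v = N →
      (∀ v : {v : V // v ≠ s}, E v.1 = e v) →
      (∀ w, D' w = E w - ∑ v, (f v : ℤ) * Δ a v w) →
      ReflTransGen (Fires a s) (x + fun w => n * a s w.1) e →
      ∃ (E' : V → ℤ) (e' : Config s) (n' : ℕ), (∀ v : {v : V // v ≠ s}, E' v.1 = e' v) ∧
        (∀ v, E' v < (outdeg a v : ℤ)) ∧
        ReflTransGen (Fires a s) (x + fun w => n' * a s w.1) e' ∧ ∑ v, E' v = ∑ v, E v := by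
  induction N with
  | zero =>
    intro f E e n hf hE hrel hreach
    refine ⟨E, e, n, hE, ?_, hreach, rfl⟩
    intro v
    have h1 : ∀ v, f v = 0 := fun v => by
      have := (Finset.sum_eq_zero_iff.1 hf) v (Finset.mem_univ v)
      exact this
    have h2 := hrel v
    simp only [h1, Nat.cast_zero, zero_mul, Finset.sum_const_zero, sub_zero] at h2
    rw [← h2]
    exact hD' v
  | succ N ih =>
    intro f E e n hf hE hrel hreach
    by_cases hsub : ∀ v, E v < (outdeg a v : ℤ)
    · exact ⟨E, e, n, hE, hsub, hreach, rfl⟩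
    · push Not at hsub
      obtain ⟨v, hv⟩ := hsub
      have hfv : 1 ≤ f v := by
        by_contra hcon
        have hfv0 : f v = 0 := by omega
        have h1 := hrel v
        have h2 : ∑ u, (f u : ℤ) * Δ a u v ≤ 0 := by
          apply Finset.sum_nonpos
          intro u _
          by_cases huv : u = v
          · rw [huv, hfv0]
            simp
          · unfold Δ
            rw [if_neg (Ne.symm huv)]
            have : (0 : ℤ) ≤ (f u : ℤ) * (a u v : ℤ) := by positivity
            linarith
        have h3 := hD' v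
        linarith
      -- decrease f at v
      set f1 : V → ℕ := Function.update f v (f v - 1) with hf1
      have hf1v : ∀ u, (f u : ℤ) = (f1 u : ℤ) + if u = v then 1 else 0 := by
        intro u
        by_cases hu : u = v
        · subst hu
          rw [hf1, Function.update_self, if_pos rfl]
          omega
        · rw [hf1, Function.update_of_ne hu, if_neg hu, add_zero]
      have hf1sum : ∑ u, f1 u = N := by
        have h1 : (∑ u, (f u : ℤ)) = (∑ u, (f1 u : ℤ)) + 1 := by
          rw [Finset.sum_congr rfl fun u _ => hf1v u, Finset.sum_add_distrib,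
            Finset.sum_ite_eq' Finset.univ v]
          simp
        have h2 : ((∑ u, f u : ℕ) : ℤ) = ((∑ u, f1 u : ℕ) : ℤ) + 1 := by
          push_cast
          exact h1
        rw [hf] at h2
        omega
      set E1 : V → ℤ := fun w => E w - Δ a v w with hE1
      have hrel1 : ∀ w, D' w = E1 w - ∑ u, (f1 u : ℤ) * Δ a u w := by
        intro w
        rw [hrel w]
        have h1 : ∑ u, (f u : ℤ) * Δ a u w = ∑ u, (f1 u : ℤ) * Δ a u w + Δ a v w := by
          rw [Finset.sum_congr rfl fun u _ => by rw [hf1v u, add_mul], Finset.sum_add_distrib]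
          congr 1
          simp only [ite_mul, one_mul, zero_mul]
          rw [Finset.sum_ite_eq' Finset.univ v]
          simp
        rw [h1]
        simp only [hE1]
        ring
      have hsumE : ∑ w, E1 w = ∑ w, E w := by
        simp only [hE1, Finset.sum_sub_distrib, sum_Δ, sub_zero]
      by_cases hvs : v = s
      · -- fire the sink: add β
        subst hvs
        have hE1e : ∀ w : {w : V // w ≠ v}, E1 w.1 = ((e + fun w => a v w.1 : Config v) w : ℕ) := by
          intro w
          simp only [hE1]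
          unfold Δ
          rw [if_neg w.2, hE w]
          show (e w : ℤ) - (0 - (a v w.1 : ℤ)) = ((e w + a v w.1 : ℕ) : ℤ)
          push_cast
          ring
        have hreach1 : ReflTransGen (Fires a v) (x + fun w => (n + 1) * a v w.1)
            (e + fun w => a v w.1) := by
          have h1 := reach_add hreach (fun w => a v w.1)
          have h2 : (fun w => a v w.1) + (x + fun w => n * a v w.1) =
              (x + fun w : {w : V // w ≠ v} => (n + 1) * a v w.1) := by
            funext w
            show a v w.1 + (x w + n * a v w.1) = x w + (n + 1) * a v w.1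
            ring
          rw [h2, add_comm] at h1
          have h3 : e + (fun w : {w : V // w ≠ v} => a v w.1) = (fun w => a v w.1) + e :=
            add_comm _ _
          rw [h3]
          rw [add_comm] at h1
          exact h1
        obtain ⟨E', e', n', h1, h2, h3, h4⟩ := ih f1 E1 _ (n + 1) hf1sum hE1e hrel1 hreach1
        exact ⟨E', e', n', h1, h2, h3, h4.trans hsumE⟩
      · -- fire an ordinary vertex
        have hve : outdeg a v ≤ e ⟨v, hvs⟩ := by
          have := hE ⟨v, hvs⟩
          rw [this] at hv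
          exact_mod_cast hv
        have hf := fires_fire (a := a) (v := ⟨v, hvs⟩) hve
        obtain ⟨e1, he1⟩ : ∃ e1 : Config s, Fires a s e e1 ∧ ∀ w,
            e1 w + (if w = ⟨v, hvs⟩ then outdeg a v else 0) = e w + a v w.1 := by
          refine ⟨fun w => e w + a v w.1 - (if w = ⟨v, hvs⟩ then outdeg a v else 0), hf,
            fun w => ?_⟩
          by_cases hw : w = ⟨v, hvs⟩
          · subst hw
            simp only [if_true]
            omega
          · simp only [if_neg hw]
            omega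
        have hE1e : ∀ w : {w : V // w ≠ s}, E1 w.1 = e1 w := by
          intro w
          simp only [hE1]
          unfold Δ
          rw [hE w]
          have h1 := he1.2 w
          by_cases hw : w = ⟨v, hvs⟩
          · have hw' : w.1 = v := congrArg Subtype.val hw
            rw [if_pos hw'] 
            rw [if_pos hw] at h1
            have h2 : (e1 w : ℤ) + (outdeg a v : ℤ) = (e w : ℤ) + (a v w.1 : ℤ) := by
              exact_mod_cast h1
            linarith
          · have hw' : w.1 ≠ v := fun h => hw (Subtype.ext h)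
            rw [if_neg hw']
            rw [if_neg hw] at h1
            have h2 : (e1 w : ℤ) + 0 = (e w : ℤ) + (a v w.1 : ℤ) := by
              exact_mod_cast h1
            linarith
        obtain ⟨E', e', n', h1, h2, h3, h4⟩ :=
          ih f1 E1 e1 n hf1sum hE1e hrel1 (hreach.tail he1.1)
        exact ⟨E', e', n', h1, h2, h3, h4.trans hsumE⟩

lemma big_iff (h0 : ∀ v, a v v = 0) (hsc : StronglyConnected a) {c : Config s}
    (hc : Recurrent a s c) (k : ℤ) :
    (∃ D : V → ℤ, D - ext c k ∈ Λ a ∧ ∀ v, D v < (outdeg a v : ℤ)) ↔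
      ∃ e : Config s, Recurrent a s e ∧ toZ e - toZ c ∈ L a s ∧
        k < (outdeg a s : ℤ) + ∑ v, (e v : ℤ) := by
  constructor
  · rintro ⟨D, hD, hsub⟩
    have : Nonempty V := ⟨s⟩
    obtain ⟨f0, hf0⟩ := (Submodule.mem_span_range_iff_exists_fun ℤ).1 hD
    obtain ⟨π, hπ, hπ0⟩ := exists_period hsc
    set m : ℤ := ∑ v, |f0 v| with hm
    have hmv : ∀ v, 0 ≤ -f0 v + m * π v := by
      intro v
      have h1 : |f0 v| ≤ m := Finset.single_le_sum (f := fun v => |f0 v|)
        (fun _ _ => abs_nonneg _) (Finset.mem_univ v)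
      have h2 := le_abs_self (f0 v)
      have h3 := hπ v
      have h4 : 0 ≤ m := le_trans (abs_nonneg _) h1
      nlinarith
    have hrel : ∀ w, D w = ext c k w - ∑ v, (((-f0 v + m * π v).toNat : ℕ) : ℤ) * Δ a v w := by
      intro w
      have h1 : ∑ v, (((-f0 v + m * π v).toNat : ℕ) : ℤ) * Δ a v w =
          -(∑ v, f0 v * Δ a v w) + m * ∑ v, π v * Δ a v w := by
        rw [Finset.mul_sum, ← Finset.sum_neg_distrib, ← Finset.sum_add_distrib]
        refine Finset.sum_congr rfl fun v _ => ?_
        rw [Int.toNat_of_nonneg (hmv v)]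
        ring
      have h2 := congrFun hf0 w
      simp only [Finset.sum_apply, Pi.smul_apply, smul_eq_mul, Pi.sub_apply] at h2
      rw [h1, hπ0 w, h2]
      ring
    have hreach : ReflTransGen (Fires a s) (c + fun w => 0 * a s w.1) c := by
      have : (c + fun w : {w : V // w ≠ s} => 0 * a s w.1) = c := by
        funext w
        show c w + 0 * a s w.1 = c w
        ring
      rw [this]
    obtain ⟨E', e', n', hE', hsub', hreach', hsum'⟩ := main_step c D hsub _ _ (ext c k) c 0 rfl
      (ext_val c k) hrel hreach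
    have hst : Stable a s e' := by
      intro v
      have h1 := hsub' v.1
      rw [hE' v] at h1
      exact_mod_cast h1
    refine ⟨e', ⟨hst, fun x => ?_⟩, ?_, ?_⟩
    · obtain ⟨b, hb⟩ := hc.2 x
      refine ⟨b + fun w => n' * a s w.1, ?_, hst⟩
      have h1 := reach_add hb.1 (fun w => n' * a s w.1)
      have h2 : (fun w : {w : V // w ≠ s} => n' * a s w.1) + (x + b) =
          x + (b + fun w => n' * a s w.1) := by
        rw [add_comm, add_assoc]
      have h3 : (fun w : {w : V // w ≠ s} => n' * a s w.1) + c = c + fun w => n' * a s w.1 :=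
        add_comm _ _
      rw [h2, h3] at h1
      exact h1.trans hreach'
    · have h1 := reach_mem h0 hreach'
      have h2 : toZ e' - toZ c = (toZ e' - toZ (c + fun w => n' * a s w.1)) +
          (n' : ℤ) • β a s := by
        funext w
        show (e' w : ℤ) - (c w : ℤ) = ((e' w : ℤ) - ((c w + n' * a s w.1 : ℕ) : ℤ)) +
          (n' : ℤ) * (a s w.1 : ℤ)
        push_cast
        ring
      rw [h2]
      exact Submodule.add_mem _ h1 (Submodule.smul_mem _ _ β_mem_L)
    · have h1 := hsub' s
      have h2 : ∑ v, E' v = E' s + ∑ v : {v : V // v ≠ s}, (e' v : ℤ) := by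
        rw [Fintype.sum_eq_add_sum_subtype_ne E' s]
        congr 1
        exact Finset.sum_congr rfl fun v _ => hE' v
      rw [hsum', sum_ext] at h2
      linarith
  · rintro ⟨e, he, heL, hk⟩
    refine ⟨ext e k, ?_, fun v => ?_⟩
    · rw [mem_Λ_iff (s := s) h0]
      · rw [map_sub, res_ext, res_ext]
        exact heL
      · simp only [Pi.sub_apply, Finset.sum_sub_distrib, sum_ext, sub_self]
    · by_cases hv : v = s
      · subst hv
        rw [ext_s]
        linarith
      · have h1 := ext_val e k ⟨v, hv⟩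
        simp only at h1
        rw [h1]
        exact_mod_cast he.1 ⟨v, hv⟩

/-! ### the classes -/

lemma finite_recurrent : Finite {c : Config s // Recurrent a s c} := by
  have := finite_stable (a := a) (s := s)
  exact Finite.of_injective
    (fun c : {c : Config s // Recurrent a s c} => (⟨c.1, c.2.1⟩ : {c : Config s // Stable a s c}))
    (fun c c' h => Subtype.ext (congrArg (fun x => x.1) h))

lemma finite_classes : Finite (Classes a s) := by
  have := finite_recurrent (a := a) (s := s)
  exact Finite.of_surjective (Quotient.mk (clsSetoid a s)) Quotient.mk_surjective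

lemma degs_bdd (B : Classes a s) : BddAbove (degs a s B) := by
  refine ⟨outdeg a s + ∑ v : {v : V // v ≠ s}, outdeg a v.1, ?_⟩
  rintro n ⟨c, _, rfl⟩
  have : ∑ v, c.1 v ≤ ∑ v : {v : V // v ≠ s}, outdeg a v.1 :=
    Finset.sum_le_sum fun v _ => (c.2.1 v).le
  omega

lemma degs_nonempty (B : Classes a s) : (degs a s B).Nonempty := by
  obtain ⟨c, hc⟩ := Quotient.mk_surjective (s := clsSetoid a s) B
  exact ⟨_, c, hc, rfl⟩

lemma d_isGreatest (B : Classes a s) : IsGreatest (degs a s B) (d a s B) :=
  ⟨Nat.sSup_mem (degs_nonempty B) (degs_bdd B), fun _ hn => le_csSup (degs_bdd B) hn⟩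

lemma d_le_iff (h0 : ∀ v, a v v = 0) (hsc : StronglyConnected a)
    (c : {c : Config s // Recurrent a s c}) (k : ℤ) :
    (d a s (Quotient.mk (clsSetoid a s) c) : ℤ) ≤ k ↔
      ¬ ∃ D : V → ℤ, D - ext c.1 k ∈ Λ a ∧ ∀ v, D v < (outdeg a v : ℤ) := by
  rw [big_iff h0 hsc c.2 k]
  constructor
  · rintro h ⟨e, he, heL, hk⟩
    have h1 : outdeg a s + ∑ v, e v ∈ degs a s (Quotient.mk (clsSetoid a s) c) :=
      ⟨⟨e, he⟩, Quotient.sound heL, rfl⟩
    have h2 := (d_isGreatest (Quotient.mk (clsSetoid a s) c)).2 h1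
    have h3 : ((outdeg a s + ∑ v, e v : ℕ) : ℤ) ≤ (d a s (Quotient.mk (clsSetoid a s) c) : ℤ) := by
      exact_mod_cast h2
    push_cast at h3
    linarith
  · intro h
    by_contra hcon
    push Not at hcon
    apply h
    obtain ⟨e, he, hd⟩ := (d_isGreatest (Quotient.mk (clsSetoid a s) c)).1
    refine ⟨e.1, e.2, Quotient.exact he, ?_⟩
    rw [hd] at hcon
    push_cast at hcon
    exact hcon

/-- classes in degree `k` containing no subcritical element -/
def Pk (a : V → V → ℕ) (k : ℤ) (q : (V → ℤ) ⧸ Λ a) : Prop :=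
  (∃ D : V → ℤ, Submodule.Quotient.mk D = q ∧ ∑ v, D v = k) ∧
    ¬ ∃ D : V → ℤ, Submodule.Quotient.mk D = q ∧ ∀ v, D v < (outdeg a v : ℤ)

lemma ncard_le (h0 : ∀ v, a v v = 0) (hsc : StronglyConnected a) (s : V) (k : ℤ) :
    Set.ncard {B : Classes a s | (d a s B : ℤ) ≤ k} = Set.ncard {q | Pk a k q} := by
  have hiff : ∀ c c' : Config s, (ext c k - ext c' k ∈ Λ a ↔ toZ c - toZ c' ∈ L a s) := by
    intro c c'
    rw [mem_Λ_iff (s := s) h0]
    · rw [map_sub, res_ext, res_ext]
    · simp only [Pi.sub_apply, Finset.sum_sub_distrib, sum_ext, sub_self]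
  let T : Classes a s → (V → ℤ) ⧸ Λ a :=
    Quotient.lift (s := clsSetoid a s) (fun c => Submodule.Quotient.mk (ext c.1 k)) (by
      intro c c' h
      exact (Submodule.Quotient.eq _).2 ((hiff _ _).2 h))
  have hTinj : Function.Injective T := by
    intro B B' h
    obtain ⟨c, rfl⟩ := Quotient.mk_surjective (s := clsSetoid a s) B
    obtain ⟨c', rfl⟩ := Quotient.mk_surjective (s := clsSetoid a s) B'
    exact Quotient.sound ((hiff _ _).1 ((Submodule.Quotient.eq _).1 h))
  rw [← Set.ncard_image_of_injective _ hTinj]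
  congr 1
  ext q
  constructor
  · rintro ⟨B, hB, rfl⟩
    obtain ⟨c, rfl⟩ := Quotient.mk_surjective (s := clsSetoid a s) B
    refine ⟨⟨ext c.1 k, rfl, sum_ext _ _⟩, ?_⟩
    rintro ⟨D, hD, hsub⟩
    exact (d_le_iff h0 hsc c k).1 hB ⟨D, (Submodule.Quotient.eq _).1 hD, hsub⟩
  · rintro ⟨⟨D, rfl, hDk⟩, hno⟩
    obtain ⟨c, hc, hcD⟩ := exists_recurrent (s := s) h0 hsc (res s D)
    have h1 : ext c k - D ∈ Λ a := by
      rw [mem_Λ_iff (s := s) h0]
      · rw [map_sub, res_ext]
        exact hcD
      · simp only [Pi.sub_apply, Finset.sum_sub_distrib, sum_ext, hDk, sub_self]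
    have h2 : (Submodule.Quotient.mk (ext c k) : (V → ℤ) ⧸ Λ a) = Submodule.Quotient.mk D :=
      (Submodule.Quotient.eq _).2 h1
    refine ⟨Quotient.mk (clsSetoid a s) ⟨c, hc⟩, ?_, h2⟩
    show (d a s (Quotient.mk (clsSetoid a s) ⟨c, hc⟩) : ℤ) ≤ k
    rw [d_le_iff h0 hsc]
    rintro ⟨D', hD', hsub⟩
    exact hno ⟨D', ((Submodule.Quotient.eq _).2 hD').trans h2, hsub⟩

lemma ncard_eq (h0 : ∀ v, a v v = 0) (hsc : StronglyConnected a) (s s' : V) (k : ℕ) :
    Nat.card {B : Classes a s // d a s B = k} = Nat.card {B : Classes a s' // d a s' B = k} := by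
  have key : ∀ s : V, (Nat.card {B : Classes a s // d a s B = k} : ℤ) =
      (Set.ncard {q | Pk a (k : ℤ) q} : ℤ) - (Set.ncard {q | Pk a ((k : ℤ) - 1) q} : ℤ) := by
    intro s
    have := finite_classes (a := a) (s := s)
    rw [← ncard_le h0 hsc s, ← ncard_le h0 hsc s]
    have h1 : {B : Classes a s | (d a s B : ℤ) ≤ k} =
        {B : Classes a s | (d a s B : ℤ) ≤ (k : ℤ) - 1} ∪ {B : Classes a s | d a s B = k} := by
      ext B
      show (d a s B : ℤ) ≤ k ↔ (d a s B : ℤ) ≤ (k : ℤ) - 1 ∨ d a s B = k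
      omega
    have h2 : Disjoint {B : Classes a s | (d a s B : ℤ) ≤ (k : ℤ) - 1}
        {B : Classes a s | d a s B = k} := by
      rw [Set.disjoint_left]
      intro B hB hB'
      have h3 : (d a s B : ℤ) ≤ (k : ℤ) - 1 := hB
      have h4 : d a s B = k := hB'
      omega
    rw [h1, Set.ncard_union_eq h2 (Set.toFinite _) (Set.toFinite _)]
    have h5 : Nat.card {B : Classes a s // d a s B = k} =
        Set.ncard {B : Classes a s | d a s B = k} := rfl
    rw [h5]
    push_cast
    ring
  have h1 := key s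
  have h2 := key s'
  rw [← h2] at h1
  exact_mod_cast h1

end

/-- **Sink-independence.** For a loopless strongly connected multidigraph `a` and any two vertices
`s`, `s'`, the classes for `s` and for `s'` are finite in number, `d` is the maximum of the degrees
in a class, and there is a bijection between the classes for `s` and the classes for `s'`
preserving `d`; that is, the multisets `D_s` and `D_{s'}` coincide. -/
theorem result {V : Type} [Fintype V] [DecidableEq V] (a : V → V → ℕ) (h0 : ∀ v, a v v = 0)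
    (hsc : StronglyConnected a) (s s' : V) :
    Finite (Classes a s) ∧ (∀ B : Classes a s, IsGreatest (degs a s B) (d a s B)) ∧
      ∃ φ : Classes a s ≃ Classes a s', ∀ B, d a s' (φ B) = d a s B := by
  refine ⟨finite_classes, d_isGreatest, ?_⟩
  have := finite_classes (a := a) (s := s)
  have := finite_classes (a := a) (s := s')
  have hk : ∀ k : ℕ, Nonempty ({B : Classes a s // d a s B = k} ≃
      {B : Classes a s' // d a s' B = k}) := by
    intro k
    exact Finite.card_eq.1 (ncard_eq h0 hsc s s' k)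
  let e := fun k => Classical.choice (hk k)
  refine ⟨(Equiv.sigmaFiberEquiv (d a s)).symm.trans
    ((Equiv.sigmaCongrRight e).trans (Equiv.sigmaFiberEquiv (d a s'))), fun B => ?_⟩
  show d a s' (e (d a s B) ⟨B, rfl⟩).1 = d a s B
  exact (e (d a s B) ⟨B, rfl⟩).2

end Pool.Agent.Results.MP_b187f1_co.SinkIndependence
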